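import Pool.Agent.Helper25.GF.Goals

/-!
# Packet GF-PAS
-/

set_option autoImplicit false

namespace Pool.Agent.Helper97.GF

open Finset

/-- the kernel -/
noncomputable def Kr (a b : ℕ) : ℝ := (1 : ℝ) / (max 1 (max a b) : ℕ)

theorem Kr_nonneg (a b : ℕ) : 0 ≤ Kr a b := by
  unfold Kr
  positivity

theorem harm (n : ℕ) : ∑ b ∈ range n, (1 : ℝ) / ((b + 1 : ℕ) : ℝ) ≤ 1 + Real.log (n + 1) := by
  have h1 := harmonic_le_one_add_log n
  have h2 : ((harmonic n : ℚ) : ℝ) = ∑ b ∈ range n, (1 : ℝ) / ((b + 1 : ℕ) : ℝ) := by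
    rw [harmonic]
    push_cast
    apply Finset.sum_congr rfl
    intro b _
    rw [one_div]
  rw [← h2]
  refine h1.trans ?_
  rcases Nat.eq_zero_or_pos n with h | h
  · subst h; simp
  · have : (0 : ℝ) < n := by exact_mod_cast h
    have h3 : Real.log (n : ℝ) ≤ Real.log ((n : ℝ) + 1) := Real.log_le_log this (by linarith)
    linarith

theorem row (t a : ℕ) (ht : 1 ≤ t) : ∑ b ∈ range t, Kr b a ≤ 3 + Real.log t := by
  obtain ⟨n, rfl⟩ : ∃ n, t = n + 1 := ⟨t - 1, by omega⟩
  have hsplit : ∑ b ∈ range (n + 1), Kr b a ≤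
      ∑ b ∈ range (n + 1), ((if b ≤ a then (1 : ℝ) / (max 1 a : ℕ) else 0) +
        (if 1 ≤ b then (1 : ℝ) / (b : ℝ) else 0)) := by
    apply Finset.sum_le_sum
    intro b _
    by_cases h : b ≤ a
    · rw [if_pos h]
      have h1 : Kr b a = (1 : ℝ) / (max 1 a : ℕ) := by
        rw [Kr, max_eq_right h]
      rw [h1]
      have h2 : (0 : ℝ) ≤ (if 1 ≤ b then (1 : ℝ) / (b : ℝ) else 0) := by
        split_ifs <;> positivity
      linarith
    · rw [if_neg h, if_pos (by omega)]
      have h1 : Kr b a = (1 : ℝ) / (b : ℝ) := by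
        rw [Kr, max_eq_left (by omega : a ≤ b), max_eq_right (by omega : 1 ≤ b)]
      rw [h1, zero_add]
  refine hsplit.trans ?_
  rw [Finset.sum_add_distrib]
  have hA : ∑ b ∈ range (n + 1), (if b ≤ a then (1 : ℝ) / (max 1 a : ℕ) else 0) ≤ 2 := by
    rw [← Finset.sum_filter, Finset.sum_const, nsmul_eq_mul]
    have hc : ((range (n + 1)).filter (fun b => b ≤ a)).card ≤ a + 1 := by
      have hsub : (range (n + 1)).filter (fun b => b ≤ a) ⊆ range (a + 1) := by
        intro b hb
        rw [mem_filter] at hb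
        rw [mem_range]
        omega
      simpa using Finset.card_le_card hsub
    have hc2 : (((range (n + 1)).filter (fun b => b ≤ a)).card : ℝ) ≤ 2 * ((max 1 a : ℕ) : ℝ) := by
      have h3 : ((range (n + 1)).filter (fun b => b ≤ a)).card ≤ 2 * max 1 a := by
        rcases Nat.eq_zero_or_pos a with h | h
        · subst h
          have : max 1 0 = 1 := rfl
          omega
        · rw [max_eq_right h]
          omega
      exact_mod_cast h3
    have hpos : (0 : ℝ) < ((max 1 a : ℕ) : ℝ) := by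
      have : 0 < max 1 a := by
        have := le_max_left 1 a
        omega
      exact_mod_cast this
    rw [mul_one_div, div_le_iff₀ hpos]
    exact hc2
  have hB : ∑ b ∈ range (n + 1), (if 1 ≤ b then (1 : ℝ) / (b : ℝ) else 0) ≤
      1 + Real.log (n + 1) := by
    rw [Finset.sum_range_succ']
    have h0 : ¬ (1 ≤ 0) := by omega
    rw [if_neg h0, add_zero]
    have h1 : ∑ b ∈ range n, (if 1 ≤ b + 1 then (1 : ℝ) / ((b + 1 : ℕ) : ℝ) else 0) =
        ∑ b ∈ range n, (1 : ℝ) / ((b + 1 : ℕ) : ℝ) := by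
      apply Finset.sum_congr rfl
      intro b _
      rw [if_pos (by omega)]
    rw [h1]
    exact harm n
  have hcast : ((n + 1 : ℕ) : ℝ) = (n : ℝ) + 1 := by push_cast; ring
  rw [hcast]
  linarith

theorem pas : Pool.Agent.Helper25.GF.PAS := by
  classical
  intro m t ht
  have hKr : ∀ (m : ℕ) (a : Fin (m + 1) → ℕ),
      ∏ i : Fin m, (1 : ℝ) / (max 1 (max (a i.castSucc) (a i.succ)) : ℕ) =
      ∏ i : Fin m, Kr (a i.castSucc) (a i.succ) := fun m a => rfl
  simp only [hKr]
  have hL : 0 ≤ 3 + Real.log t := by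
    have : 0 ≤ Real.log t := Real.log_natCast_nonneg t
    linarith
  induction m with
  | zero =>
    simp
  | succ m ih =>
    have key : ∑ a ∈ Fintype.piFinset (fun _ : Fin (m + 1 + 1) => range t),
        ∏ i : Fin (m + 1), Kr (a i.castSucc) (a i.succ) =
        ∑ p ∈ (Fintype.piFinset (fun _ : Fin (m + 1) => range t)) ×ˢ range t,
          (∏ i : Fin m, Kr (p.1 i.castSucc) (p.1 i.succ)) * Kr p.2 (p.1 0) := by
      apply Finset.sum_nbij' (fun a : Fin (m + 1 + 1) → ℕ => ((fun i => a i.succ), a 0))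
        (fun p : (Fin (m + 1) → ℕ) × ℕ => (Fin.cons p.2 p.1 : Fin (m + 1 + 1) → ℕ))
      · intro a ha
        rw [Fintype.mem_piFinset] at ha
        rw [Finset.mem_product, Fintype.mem_piFinset]
        exact ⟨fun i => ha _, ha 0⟩
      · intro p hp
        rw [Finset.mem_product, Fintype.mem_piFinset] at hp
        rw [Fintype.mem_piFinset]
        intro i
        refine Fin.cases ?_ (fun j => ?_) i
        · rw [Fin.cons_zero]; exact hp.2
        · rw [Fin.cons_succ]; exact hp.1 j
      · intro a _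
        funext i
        refine Fin.cases ?_ (fun j => ?_) i
        · rw [Fin.cons_zero]
        · rw [Fin.cons_succ]
      · intro p _
        ext i
        · simp
        · simp
      · intro a _
        rw [Fin.prod_univ_succ, mul_comm]
        rfl
    rw [key, Finset.sum_product]
    have h1 : ∀ a ∈ Fintype.piFinset (fun _ : Fin (m + 1) => range t),
        ∑ x ∈ range t, (∏ i : Fin m, Kr (a i.castSucc) (a i.succ)) * Kr x (a 0) ≤
        (∏ i : Fin m, Kr (a i.castSucc) (a i.succ)) * (3 + Real.log t) := by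
      intro a _
      rw [← Finset.mul_sum]
      exact mul_le_mul_of_nonneg_left (row t (a 0) ht)
        (Finset.prod_nonneg fun i _ => Kr_nonneg _ _)
    refine (Finset.sum_le_sum h1).trans ?_
    rw [← Finset.sum_mul, pow_succ, ← mul_assoc]
    exact mul_le_mul_of_nonneg_right ih hL

end Pool.Agent.Helper97.GF
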